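import Mathlib
import Pool.Agent.Helper669.Forcing
import Pool.Agent.TH785.WC.Defs

/-!
# A family of points of the Cantor set: the combinatorial statement and its forcing translation
-/

set_option autoImplicit false

namespace Pool.Agent.TH785.DS

open Pool.Agent.Helper669.Forcing

open Pool.Agent.TH785.WC (Same mem_Same mem_fnot_Same meets_of_dense meets_or not_meets_of_fnot)

universe u v

/-- The finite sequence `s` is an initial segment of the characteristic function of `a`. -/
def Init (s : List Bool) (a : Set ℕ) : Prop := ∀ n, n < s.length → (s.getD n false = true ↔ n ∈ a)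

/-- There is a family `x i` (`i : I`) of pairwise different subsets of `ℕ` such that
(1) for every function `f : I → ℕ` there are open subsets `U n` of the Cantor set (unions of the
basic open sets given by finite sequences `s ∈ U n`) with `x i ∈ U (f i)` such that every `x i`
belongs to only finitely many `U n`;
(2) there is a function `e : I × I → ℕ` for which there are no open subsets `U n` of the square
of the Cantor set with `(x i, x j) ∈ U (e (i, j))` such that every `(x i, x j)` belongs to only
finitely many `U n`. -/
def DeltaFamily (I : Type) : Prop :=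
  ∃ x : I → Set ℕ, (∀ i j, i ≠ j → x i ≠ x j) ∧
    (∀ f : I → ℕ, ∃ U : ℕ → Set (List Bool), (∀ i, ∃ s, s ∈ U (f i) ∧ Init s (x i)) ∧
      ∀ i, ∃ k, ∀ m, k ≤ m → ∀ s, ¬ (s ∈ U m ∧ Init s (x i))) ∧
    ∃ e : I × I → ℕ, ¬ ∃ U : ℕ → Set (List Bool × List Bool),
      (∀ z : I × I, ∃ s : List Bool × List Bool,
        s ∈ U (e z) ∧ Init s.1 (x z.1) ∧ Init s.2 (x z.2)) ∧
      ∀ z : I × I, ∃ k, ∀ m, k ≤ m → ∀ s : List Bool × List Bool,
        ¬ (s ∈ U m ∧ Init s.1 (x z.1) ∧ Init s.2 (x z.2))

section

variable {P : Type u} [Preorder P]

/-- The finite sequence `s` is an initial segment of the characteristic function of the subset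
of `ℕ` named by `a`. -/
def InitN (s : List Bool) (a : ℕ → Set P) : Set P :=
  fall fun n => fall fun _ : n < s.length =>
    if s.getD n false = true then meets (a n) else fnot (meets (a n))

/-- The forcing translation of `DeltaFamily I`, clause by clause. -/
def DeltaFamilyN (P : Type u) [Preorder P] (I : Type v) : Set P :=
  fex fun x : I → ℕ → Set P =>
    fand (fall fun i => fall fun j => fall fun _ : i ≠ j => fnot (Same (x i) (x j))) <|
    fand (fall fun f : I → ℕ → Set P => fimp (IsFun f) (fex fun U : ℕ → List Bool → Set P =>
      fand (fall fun i => fall fun n => fimp (meets (f i n))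
        (fex fun s => fand (meets (U n s)) (InitN s (x i))))
        (fall fun i => fex fun k => fall fun m => fall fun _ : k ≤ m => fall fun s =>
          fnot (fand (meets (U m s)) (InitN s (x i))))))
    (fex fun e : I × I → ℕ → Set P => fand (IsFun e)
      (fnot (fex fun U : ℕ → List Bool × List Bool → Set P =>
        fand (fall fun z : I × I => fall fun n => fimp (meets (e z n))
          (fex fun s : List Bool × List Bool => fand (meets (U n s))
            (fand (InitN s.1 (x z.1)) (InitN s.2 (x z.2)))))
        (fall fun z : I × I => fex fun k => fall fun m => fall fun _ : k ≤ m =>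
          fall fun s : List Bool × List Bool =>
            fnot (fand (meets (U m s)) (fand (InitN s.1 (x z.1)) (InitN s.2 (x z.2))))))))

theorem down_InitN (s : List Bool) (a : ℕ → Set P) : Down (InitN s a) := by
  refine down_fall fun n => down_fall fun _ => ?_
  split_ifs
  · exact down_meets _
  · exact down_fnot _

end

end Pool.Agent.TH785.DS
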