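import Mathlib

/-!
# The notion of forcing

A condition consists of finite approximations `σ i` to subsets `x i` of `ℕ`, of finitely many
triples `(j, s, m)` in `A` (the basic open set given by `s` is put into the `m`-th open set of the
`j`-th task) and of finitely many triples `(j, i, k)` in `H` (the point `x i` does not belong to
the `m`-th open set of the `j`-th task for `k ≤ m`).
-/

set_option autoImplicit false

namespace Pool.Agent.TH785.DS

variable {J I : Type}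

/-- Neither of the two sequences is an initial segment of the other. -/
def Inc (s t : List Bool) : Prop := ¬ s <+: t ∧ ¬ t <+: s

theorem Inc.mono {s t t' : List Bool} (h : Inc s t) (ht : t <+: t') : Inc s t' := by
  refine ⟨fun h1 => ?_, fun h1 => h.2 (ht.trans h1)⟩
  rcases List.prefix_or_prefix_of_prefix h1 ht with h2 | h2
  · exact h.1 h2
  · exact h.2 h2

/-- Raw conditions. -/
@[ext] structure Raw (J I : Type) where
  /-- the approximations -/
  σ : I → List Bool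
  /-- only finitely many are not empty -/
  fin : {i | σ i ≠ []}.Finite
  /-- the basic open sets -/
  A : Set (J × List Bool × ℕ)
  /-- there are finitely many -/
  finA : A.Finite
  /-- the promises -/
  H : Set (J × I × ℕ)
  /-- there are finitely many -/
  finH : H.Finite

/-- the order of the raw conditions -/
def RLe (p q : Raw J I) : Prop := (∀ i, q.σ i <+: p.σ i) ∧ q.A ⊆ p.A ∧ q.H ⊆ p.H

theorem RLe.refl (p : Raw J I) : RLe p p := ⟨fun _ => List.prefix_rfl, subset_rfl, subset_rfl⟩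

theorem RLe.trans {p q r : Raw J I} (h : RLe p q) (h' : RLe q r) : RLe p r :=
  ⟨fun i => (h'.1 i).trans (h.1 i), h'.2.1.trans h.2.1, h'.2.2.trans h.2.2⟩

/-- The basic open sets are consistent with the promises. -/
def Con (p : Raw J I) : Prop :=
  ∀ j s m i k, (j, s, m) ∈ p.A → (j, i, k) ∈ p.H → k ≤ m → Inc s (p.σ i)

/-- the common extension with given approximations -/
def join (τ : I → List Bool) (hτ : {i | τ i ≠ []}.Finite) (p q : Raw J I) : Raw J I :=
  ⟨τ, hτ, p.A ∪ q.A, p.finA.union q.finA, p.H ∪ q.H, p.finH.union q.finH⟩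

section

variable [LinearOrder J]

/-- the part of a condition dealing with the tasks before `j` -/
def cut (p : Raw J I) (j : J) : Raw J I :=
  ⟨p.σ, p.fin, {x ∈ p.A | x.1 < j}, p.finA.subset fun _ h => h.1, {x ∈ p.H | x.1 < j},
    p.finH.subset fun _ h => h.1⟩

/-- All tasks of the condition are before `j`. -/
def Below (p : Raw J I) (j : J) : Prop := (∀ x ∈ p.A, x.1 < j) ∧ ∀ x ∈ p.H, x.1 < j

theorem below_cut (p : Raw J I) (j : J) : Below (cut p j) j := ⟨fun _ h => h.2, fun _ h => h.2⟩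

theorem cut_mono {p q : Raw J I} (h : RLe p q) (j : J) : RLe (cut p j) (cut q j) :=
  ⟨h.1, fun _ hx => ⟨h.2.1 hx.1, hx.2⟩, fun _ hx => ⟨h.2.2 hx.1, hx.2⟩⟩

theorem le_cut (p : Raw J I) (j : J) : RLe p (cut p j) :=
  ⟨fun _ => List.prefix_rfl, fun _ hx => hx.1, fun _ hx => hx.1⟩

theorem cut_le_of_below {p s : Raw J I} {j : J} (h : RLe p s) (hs : Below s j) :
    RLe (cut p j) s :=
  ⟨h.1, fun _ hx => ⟨h.2.1 hx, hs.1 _ hx⟩, fun _ hx => ⟨h.2.2 hx, hs.2 _ hx⟩⟩

theorem cut_cut {p : Raw J I} {i j : J} (h : i ≤ j) : cut (cut p j) i = cut p i := by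
  have h1 : ∀ {Y : Type} (A : Set (J × Y)), {x ∈ {x ∈ A | x.1 < j} | x.1 < i} =
      {x ∈ A | x.1 < i} := by
    intro Y A
    ext x
    exact ⟨fun hx => ⟨hx.1.1, hx.2⟩, fun hx => ⟨⟨hx.1, hx.2.trans_le h⟩, hx.2⟩⟩
  simp only [cut, Raw.mk.injEq, true_and]
  exact ⟨h1 _, h1 _⟩

variable (F : J → I → ℕ → Set (Raw J I))

/-- The promises of the condition dealing with the task `j` are correct, where `W` is the set of
conditions below `j`. -/
def LV (W : Set (Raw J I)) (j : J) (p : Raw J I) : Prop :=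
  ∀ ξ k, (j, ξ, k) ∈ p.H → ∀ q ∈ W, RLe q (cut p j) → ∀ m, (∃ s ∈ F j ξ m, RLe q s) → m < k

variable [WellFoundedLT J]

/-- the conditions below `j` -/
noncomputable def V : J → Set (Raw J I) :=
  IsWellFounded.fix (· < ·) fun j W => {p | Con p ∧ Below p j ∧ ∀ i (h : i < j), LV F (W i h) i p}

theorem mem_V {j : J} {p : Raw J I} :
    p ∈ V F j ↔ Con p ∧ Below p j ∧ ∀ i < j, LV F (V F i) i p := by
  have h : V F j = {p | Con p ∧ Below p j ∧ ∀ i (_ : i < j), LV F (V F i) i p} := by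
    unfold V
    rw [IsWellFounded.fix_eq]
  rw [h]
  rfl

/-- the set of the conditions -/
def PS : Set (Raw J I) := {p | Con p ∧ ∀ j, LV F (V F j) j p}

variable {F}

theorem PS_of_V {j : J} {p : Raw J I} (h : p ∈ V F j) : p ∈ PS F := by
  rw [mem_V] at h
  refine ⟨h.1, fun i ξ k hk => ?_⟩
  exact h.2.2 i (h.2.1.2 _ hk) ξ k hk

theorem cut_mem_V {p : Raw J I} (h : p ∈ PS F) (j : J) : cut p j ∈ V F j := by
  rw [mem_V]
  refine ⟨fun j' s m i k h1 h2 => h.1 j' s m i k h1.1 h2.1, below_cut p j,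
    fun i hi ξ k hk q hq hle => h.2 i ξ k hk.1 q hq ?_⟩
  rwa [cut_cut hi.le] at hle

/-- It suffices to find every promise in a weaker condition. -/
theorem mem_PS_of_promises {r : Raw J I} (h : Con r)
    (hp : ∀ j ξ k, (j, ξ, k) ∈ r.H → (∃ p ∈ PS F, RLe r p ∧ (j, ξ, k) ∈ p.H) ∨
      ∀ q ∈ V F j, RLe q (cut r j) → ∀ m, (∃ s ∈ F j ξ m, RLe q s) → m < k) : r ∈ PS F := by
  refine ⟨h, fun j ξ k hk => ?_⟩
  rcases hp j ξ k hk with ⟨p, hp, hrp, hpk⟩ | h1
  · intro q hq hle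
    exact hp.2 j ξ k hpk q hq (hle.trans (cut_mono hrp j))
  · exact h1

/-- amalgamation -/
theorem join_mem {p q : Raw J I} (hp : p ∈ PS F) (hq : q ∈ PS F) {τ : I → List Bool}
    (hτ : {i | τ i ≠ []}.Finite) (h1 : ∀ i, p.σ i <+: τ i) (h2 : ∀ i, q.σ i <+: τ i)
    (h3 : ∀ j s m i k, (j, s, m) ∈ p.A → (j, i, k) ∈ q.H → k ≤ m → Inc s (τ i))
    (h4 : ∀ j s m i k, (j, s, m) ∈ q.A → (j, i, k) ∈ p.H → k ≤ m → Inc s (τ i)) :
    join τ hτ p q ∈ PS F ∧ RLe (join τ hτ p q) p ∧ RLe (join τ hτ p q) q := by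
  have hl1 : RLe (join τ hτ p q) p := ⟨h1, Set.subset_union_left, Set.subset_union_left⟩
  have hl2 : RLe (join τ hτ p q) q := ⟨h2, Set.subset_union_right, Set.subset_union_right⟩
  refine ⟨mem_PS_of_promises ?_ ?_, hl1, hl2⟩
  · rintro j s m i k (ha | ha) (hb | hb) hk
    · exact (hp.1 j s m i k ha hb hk).mono (h1 i)
    · exact h3 j s m i k ha hb hk
    · exact h4 j s m i k ha hb hk
    · exact (hq.1 j s m i k ha hb hk).mono (h2 i)
  · rintro j ξ k (hk | hk)
    · exact Or.inl ⟨p, hp, hl1, hk⟩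
    · exact Or.inl ⟨q, hq, hl2, hk⟩

/-- lengthening the approximations -/
theorem exists_long {p : Raw J I} (hp : p ∈ PS F) {τ : I → List Bool}
    (hτ : {i | τ i ≠ []}.Finite) (h1 : ∀ i, p.σ i <+: τ i) :
    (⟨τ, hτ, p.A, p.finA, p.H, p.finH⟩ : Raw J I) ∈ PS F ∧
      RLe (⟨τ, hτ, p.A, p.finA, p.H, p.finH⟩ : Raw J I) p := by
  have hl : RLe (⟨τ, hτ, p.A, p.finA, p.H, p.finH⟩ : Raw J I) p := ⟨h1, subset_rfl, subset_rfl⟩
  refine ⟨mem_PS_of_promises ?_ fun j ξ k hk => Or.inl ⟨p, hp, hl, hk⟩, hl⟩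
  intro j s m i k ha hb hk
  exact (hp.1 j s m i k ha hb hk).mono (h1 i)

/-- a condition below `j` stronger than `cut p j` is compatible with `p` -/
theorem glue {p q : Raw J I} {j : J} (hp : p ∈ PS F) (hq : q ∈ V F j) (hle : RLe q (cut p j)) :
    join q.σ q.fin q p ∈ PS F ∧ RLe (join q.σ q.fin q p) q ∧ RLe (join q.σ q.fin q p) p := by
  have hq' := (mem_V F).1 hq
  refine join_mem (PS_of_V hq) hp q.fin (fun _ => List.prefix_rfl) hle.1 ?_ ?_
  · intro j' s m i k ha hb hk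
    exact hq'.1 j' s m i k ha (hle.2.2 ⟨hb, hq'.2.1.1 _ ha⟩) hk
  · intro j' s m i k ha hb hk
    exact hq'.1 j' s m i k (hle.2.1 ⟨ha, hq'.2.1.2 _ hb⟩) hb hk

/-- the empty condition -/
def triv : Raw J I := ⟨fun _ => [], by simp, ∅, Set.finite_empty, ∅, Set.finite_empty⟩

theorem triv_mem : (triv : Raw J I) ∈ PS F :=
  ⟨fun _ _ _ _ _ h => h.elim, fun _ _ _ h => h.elim⟩

variable (F)

/-- the notion of forcing -/
def Cd : Type := {p : Raw J I // p ∈ PS F}

instance : Preorder (Cd F) where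
  le p q := RLe p.1 q.1
  le_refl p := RLe.refl p.1
  le_trans _ _ _ h h' := RLe.trans h h'

instance : Nonempty (Cd F) := ⟨⟨triv, triv_mem⟩⟩

end

end Pool.Agent.TH785.DS
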