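import Mathlib
import Pool.Agent.Helper669.KDelta
import Pool.Agent.TH785.DS.Poset

/-!
# Delta systems of conditions of the same shape, and amalgamation
-/

set_option autoImplicit false

namespace Pool.Agent.TH785.DS

open Cardinal Set
open Pool.Agent.Helper669.KDelta (weak_delta)

variable {J I : Type}

/-- the tasks occurring in a condition -/
def sJ (p : Raw J I) : Set J := Prod.fst '' p.A ∪ Prod.fst '' p.H

theorem sJ_fin (p : Raw J I) : (sJ p).Finite := (p.finA.image _).union (p.finH.image _)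

/-- the points occurring in a condition -/
def sI (p : Raw J I) : Set I := {i | p.σ i ≠ []} ∪ (fun x => x.2.1) '' p.H

theorem sI_fin (p : Raw J I) : (sI p).Finite := p.fin.union (p.finH.image _)

/-- The conditions `p` and `q`, whose points are listed in `L` and `M`, have the same shape. -/
structure Sim (RI : Set I) (RJ : Set J) (p q : Raw J I) (L M : List I) : Prop where
  len : L.length = M.length
  sig : ∀ (n : ℕ) (i i' : I), L[n]? = some i → M[n]? = some i' → p.σ i = q.σ i'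
  hA : ∀ j ∈ RJ, ∀ s m, (j, s, m) ∈ p.A ↔ (j, s, m) ∈ q.A
  hH : ∀ j ∈ RJ, ∀ (n : ℕ) (i i' : I) (k : ℕ), L[n]? = some i → M[n]? = some i' →
    ((j, i, k) ∈ p.H ↔ (j, i', k) ∈ q.H)
  root : ∀ i ∈ RI, ∀ n : ℕ, L[n]? = some i ↔ M[n]? = some i

theorem exists_fiber {E D : Type} [Countable D] {T : Set E} (hT : ¬ T.Countable) (g : E → D) :
    ∃ d, ¬ (T ∩ g ⁻¹' {d}).Countable := by
  by_contra hcon
  push Not at hcon
  apply hT
  have h : T = ⋃ d, T ∩ g ⁻¹' {d} := by
    ext x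
    simp
  rw [h]
  exact countable_iUnion hcon

section

variable (RI : Set I) (RJ : Set J)

theorem codeA_fin (p : Raw J I) :
    {t : RJ × List Bool × ℕ | ((t.1 : J), t.2.1, t.2.2) ∈ p.A}.Finite :=
  p.finA.preimage (f := fun t : RJ × List Bool × ℕ => ((t.1 : J), t.2.1, t.2.2)) (by
    rintro ⟨⟨a, ha⟩, b⟩ _ ⟨⟨a', ha'⟩, b'⟩ _ h
    simp only [Prod.mk.injEq] at h
    exact Prod.ext (Subtype.ext h.1) (Prod.ext h.2.1 h.2.2))

theorem codeH_fin (p : Raw J I) (L : List I) :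
    {t : RJ × ℕ × ℕ | ∃ i, L[t.2.1]? = some i ∧ ((t.1 : J), i, t.2.2) ∈ p.H}.Finite := by
  have h1 : {j : RJ | (j : J) ∈ Prod.fst '' p.H}.Finite :=
    (p.finH.image _).preimage Subtype.val_injective.injOn
  have h2 : ((fun x : J × I × ℕ => x.2.2) '' p.H).Finite := p.finH.image _
  refine (h1.prod ((finite_Iio L.length).prod h2)).subset ?_
  rintro ⟨j, n, k⟩ ⟨i, hi, hH⟩
  refine ⟨⟨_, hH, rfl⟩, ?_, ⟨_, hH, rfl⟩⟩
  obtain ⟨h, _⟩ := List.getElem?_eq_some_iff.1 hi
  exact h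

theorem codeR_fin (L : List I) : {t : RI × ℕ | L[t.2]? = some (t.1 : I)}.Finite := by
  have h1 : {i : RI | (i : I) ∈ L}.Finite :=
    (List.finite_toSet L).preimage Subtype.val_injective.injOn
  refine (h1.prod (finite_Iio L.length)).subset ?_
  rintro ⟨i, n⟩ hi
  have hi' : L[n]? = some (i : I) := hi
  obtain ⟨h, h'⟩ := List.getElem?_eq_some_iff.1 hi'
  exact ⟨List.mem_of_getElem? hi', h⟩

/-- the shape of a condition -/
noncomputable def code (p : Raw J I) (L : List I) :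
    List (List Bool) × Finset (RJ × List Bool × ℕ) × Finset (RJ × ℕ × ℕ) × Finset (RI × ℕ) :=
  (L.map p.σ, (codeA_fin RJ p).toFinset, (codeH_fin RJ p L).toFinset, (codeR_fin RI L).toFinset)

variable {RI RJ}

theorem sim_of_code {p q : Raw J I} {L M : List I} (h : code RI RJ p L = code RI RJ q M) :
    Sim RI RJ p q L M := by
  simp only [code, Prod.mk.injEq, Set.Finite.toFinset_inj] at h
  obtain ⟨h1, h2, h3, h4⟩ := h
  have hlen : L.length = M.length := by simpa using congrArg List.length h1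
  refine ⟨hlen, ?_, ?_, ?_, ?_⟩
  · intro n i i' hi hi'
    have h5 := congrArg (fun l => l[n]?) h1
    simpa [hi, hi'] using h5
  · intro j hj s m
    have h5 := Set.ext_iff.1 h2 (⟨j, hj⟩, s, m)
    exact h5
  · intro j hj n i i' k hi hi'
    have h5 := Set.ext_iff.1 h3 (⟨j, hj⟩, n, k)
    simp only [Set.mem_ofPred_eq, hi, hi', Option.some.injEq, exists_eq_left'] at h5
    exact h5
  · intro i hi n
    exact Set.ext_iff.1 h4 (⟨i, hi⟩, n)

end

/-- Among uncountably many conditions there are uncountably many which have the same shape and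
form a Delta system. -/
theorem exists_sim {E : Type} (hE : ¬ #E ≤ ℵ₀) (f : E → Raw J I) (L : E → List I) :
    ∃ (T : Set E) (RI : Set I) (RJ : Set J), ¬ T.Countable ∧ RI.Countable ∧ RJ.Countable ∧
      (∀ e ∈ T, ∀ e' ∈ T, e ≠ e' → (∀ i ∈ L e, i ∈ L e' → i ∈ RI) ∧
        ∀ j ∈ sJ (f e), j ∈ sJ (f e') → j ∈ RJ) ∧
      ∀ e ∈ T, ∀ e' ∈ T, Sim RI RJ (f e) (f e') (L e) (L e') := by
  obtain ⟨T, R, hT, hR, hTR⟩ := weak_delta (K := I ⊕ J) le_rfl hE
    (fun e => Sum.inl '' {i | i ∈ L e} ∪ Sum.inr '' sJ (f e)) (by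
      intro e
      refine Cardinal.lt_aleph0_iff_set_finite.2 ?_
      exact ((List.finite_toSet (L e)).image _).union ((sJ_fin _).image _))
  rw [Cardinal.le_aleph0_iff_set_countable] at hT hR
  have hRI : (Sum.inl ⁻¹' R : Set I).Countable := hR.preimage Sum.inl_injective
  have hRJ : (Sum.inr ⁻¹' R : Set J).Countable := hR.preimage Sum.inr_injective
  have : Countable (Sum.inl ⁻¹' R : Set I) := hRI.to_subtype
  have : Countable (Sum.inr ⁻¹' R : Set J) := hRJ.to_subtype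
  obtain ⟨d, hd⟩ := exists_fiber hT fun e =>
    code (Sum.inl ⁻¹' R : Set I) (Sum.inr ⁻¹' R : Set J) (f e) (L e)
  refine ⟨_, _, _, hd, hRI, hRJ, ?_, ?_⟩
  · intro e he e' he' hne
    refine ⟨fun i hi hi' => hTR e he.1 e' he'.1 hne ⟨Or.inl ⟨i, hi, rfl⟩, Or.inl ⟨i, hi', rfl⟩⟩,
      fun j hj hj' => hTR e he.1 e' he'.1 hne ⟨Or.inr ⟨j, hj, rfl⟩, Or.inr ⟨j, hj', rfl⟩⟩⟩
  · intro e he e' he'
    exact sim_of_code (he.2.trans he'.2.symm)

section

variable [LinearOrder J] [WellFoundedLT J] {F : J → I → ℕ → Set (Raw J I)}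

/-- two conditions of a Delta system are compatible -/
theorem amal2 {p q : Raw J I} (hp : p ∈ PS F) (hq : q ∈ PS F) {RI : Set I} {RJ : Set J}
    {L M : List I} (hsim : Sim RI RJ p q L M) (hL : ∀ i ∈ sI p, i ∈ L) (hM : ∀ i ∈ sI q, i ∈ M)
    (hI : ∀ i ∈ L, i ∈ M → i ∈ RI) (hJ : ∀ j ∈ sJ p, j ∈ sJ q → j ∈ RJ) :
    ∃ u ∈ PS F, RLe u p ∧ RLe u q := by
  classical
  let τ : I → List Bool := fun i => if p.σ i ≠ [] then p.σ i else q.σ i
  have hτ : {i | τ i ≠ []}.Finite := by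
    refine (p.fin.union q.fin).subset ?_
    intro i hi
    by_cases h : p.σ i = []
    · right
      simpa [τ, h] using hi
    · exact Or.inl h
  have h1 : ∀ i, p.σ i <+: τ i := by
    intro i
    by_cases h : p.σ i = []
    · simp [h]
    · simp [τ, h]
  have h2 : ∀ i, q.σ i <+: τ i := by
    intro i
    by_cases h : p.σ i = []
    · simp [τ, h]
    · by_cases h' : q.σ i = []
      · simp [h']
      · have hiL := hL i (Or.inl h)
        have hR := hI i hiL (hM i (Or.inl h'))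
        obtain ⟨n, hn⟩ := List.mem_iff_getElem?.1 hiL
        have h3 := hsim.sig n i i hn ((hsim.root i hR n).1 hn)
        simp [τ, h3]
  have h3 : ∀ j s m i k, (j, s, m) ∈ p.A → (j, i, k) ∈ q.H → k ≤ m → Inc s (τ i) := by
    intro j s m i k ha hb hk
    have hj := hJ j (Or.inl ⟨_, ha, rfl⟩) (Or.inr ⟨_, hb, rfl⟩)
    exact (hq.1 j s m i k ((hsim.hA j hj s m).1 ha) hb hk).mono (h2 i)
  have h4 : ∀ j s m i k, (j, s, m) ∈ q.A → (j, i, k) ∈ p.H → k ≤ m → Inc s (τ i) := by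
    intro j s m i k ha hb hk
    have hj := hJ j (Or.inr ⟨_, hb, rfl⟩) (Or.inl ⟨_, ha, rfl⟩)
    exact (hp.1 j s m i k ((hsim.hA j hj s m).2 ha) hb hk).mono (h1 i)
  obtain ⟨hu1, hu2, hu3⟩ := join_mem hp hq hτ h1 h2 h3 h4
  exact ⟨_, hu1, hu2, hu3⟩

/-- amalgamation with a third condition -/
theorem amal3 {r p p' q : Raw J I} (hr : r ∈ PS F) (hq : q ∈ PS F) (hrp : RLe r p)
    (hrp' : RLe r p') {RI : Set I} {RJ : Set J} {L L' N : List I} (hsim : Sim RI RJ p q L N)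
    (hsim' : Sim RI RJ p' q L' N) (hN : ∀ i ∈ sI q, i ∈ N) (hNr : ∀ i ∈ N, i ∈ sI r → i ∈ RI)
    (hJ : ∀ j ∈ sJ q, j ∈ sJ r → j ∈ RJ) {a b a' b' : I} (hL' : L'[0]? = some a)
    (hL : L[1]? = some b) {N' : List I} (hN' : N = a' :: b' :: N') (hab : a' ≠ b')
    (ha' : a' ∉ RI) (hb' : b' ∉ RI) :
    ∃ u ∈ PS F, RLe u r ∧ RLe u q ∧ u.σ a' = r.σ a ∧ u.σ b' = r.σ b := by
  classical
  let src : ℕ → List Bool := fun n =>
    if n = 0 then ((L'[n]?).map r.σ).getD [] else ((L[n]?).map r.σ).getD []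
  let τ : I → List Bool := fun i => if i ∈ N ∧ i ∉ RI then src (N.idxOf i) else r.σ i
  have hτ : {i | τ i ≠ []}.Finite := by
    refine (r.fin.union (List.finite_toSet N)).subset ?_
    intro i hi
    by_cases h : i ∈ N ∧ i ∉ RI
    · exact Or.inr h.1
    · left
      simpa [τ, h] using hi
  have hsrc : ∀ i, i ∈ N → i ∉ RI → ∃ p0 L0 i0, RLe r p0 ∧ Sim RI RJ p0 q L0 N ∧
      L0[N.idxOf i]? = some i0 ∧ N[N.idxOf i]? = some i ∧ τ i = r.σ i0 := by
    intro i hi hiR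
    have hn : N.idxOf i < N.length := List.idxOf_lt_length_iff.2 hi
    have hNi : N[N.idxOf i]? = some i := by
      rw [List.getElem?_eq_getElem hn, List.getElem_idxOf]
    have hτi : τ i = src (N.idxOf i) := by simp [τ, hi, hiR]
    by_cases h0 : N.idxOf i = 0
    · have hlt : N.idxOf i < L'.length := by rw [hsim'.len]; exact hn
      refine ⟨p', L', L'[N.idxOf i], hrp', hsim', List.getElem?_eq_getElem hlt, hNi, ?_⟩
      rw [hτi]
      simp only [src, h0, if_true]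
      rw [List.getElem?_eq_getElem (by rw [← h0]; exact hlt)]
      rfl
    · have hlt : N.idxOf i < L.length := by rw [hsim.len]; exact hn
      refine ⟨p, L, L[N.idxOf i], hrp, hsim, List.getElem?_eq_getElem hlt, hNi, ?_⟩
      rw [hτi]
      simp only [src, if_neg h0]
      rw [List.getElem?_eq_getElem hlt]
      rfl
  have hroot : ∀ i, i ∈ N → i ∈ RI → ∃ n : ℕ, L[n]? = some i ∧ N[n]? = some i := by
    intro i hi hiR
    obtain ⟨n, hn⟩ := List.mem_iff_getElem?.1 hi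
    exact ⟨n, (hsim.root i hiR n).2 hn, hn⟩
  have hτr : ∀ i, (i ∉ N ∨ i ∈ RI) → τ i = r.σ i := by
    intro i hi
    have : ¬ (i ∈ N ∧ i ∉ RI) := fun h => hi.elim (fun h' => h' h.1) fun h' => h.2 h'
    simp only [τ, if_neg this]
  have h1 : ∀ i, r.σ i <+: τ i := by
    intro i
    by_cases h : i ∈ N ∧ i ∉ RI
    · have h2 : r.σ i = [] := by
        by_contra hcon
        exact h.2 (hNr i h.1 (Or.inl hcon))
      simp [h2]
    · rw [hτr i (by
        by_cases hi : i ∈ N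
        · right
          by_contra hcon
          exact h ⟨hi, hcon⟩
        · exact Or.inl hi)]
  have h2 : ∀ i, q.σ i <+: τ i := by
    intro i
    by_cases hi : i ∈ N
    · by_cases hiR : i ∈ RI
      · obtain ⟨n, hn, hn'⟩ := hroot i hi hiR
        rw [hτr i (Or.inr hiR), ← hsim.sig n i i hn hn']
        exact hrp.1 i
      · obtain ⟨p0, L0, i0, hr0, hs0, h3, h4, h5⟩ := hsrc i hi hiR
        rw [h5, ← hs0.sig _ i0 i h3 h4]
        exact hr0.1 i0
    · have h3 : q.σ i = [] := by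
        by_contra hcon
        exact hi (hN i (Or.inl hcon))
      simp [h3]
  have h3 : ∀ j s m i k, (j, s, m) ∈ r.A → (j, i, k) ∈ q.H → k ≤ m → Inc s (τ i) := by
    intro j s m i k ha hb hk
    have hj := hJ j (Or.inr ⟨_, hb, rfl⟩) (Or.inl ⟨_, ha, rfl⟩)
    have hi : i ∈ N := hN i (Or.inr ⟨_, hb, rfl⟩)
    by_cases hiR : i ∈ RI
    · obtain ⟨n, hn, hn'⟩ := hroot i hi hiR
      rw [hτr i (Or.inr hiR)]
      exact hr.1 j s m i k ha (hrp.2.2 ((hsim.hH j hj n i i k hn hn').2 hb)) hk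
    · obtain ⟨p0, L0, i0, hr0, hs0, h3, h4, h5⟩ := hsrc i hi hiR
      rw [h5]
      exact hr.1 j s m i0 k ha (hr0.2.2 ((hs0.hH j hj _ i0 i k h3 h4).2 hb)) hk
  have h4 : ∀ j s m i k, (j, s, m) ∈ q.A → (j, i, k) ∈ r.H → k ≤ m → Inc s (τ i) := by
    intro j s m i k ha hb hk
    have hj := hJ j (Or.inl ⟨_, ha, rfl⟩) (Or.inr ⟨_, hb, rfl⟩)
    have h3 := hr.1 j s m i k (hrp.2.1 ((hsim.hA j hj s m).2 ha)) hb hk
    rw [hτr i]
    · exact h3
    · by_cases hi : i ∈ N
      · exact Or.inr (hNr i hi (Or.inr ⟨_, hb, rfl⟩))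
      · exact Or.inl hi
  obtain ⟨hu1, hu2, hu3⟩ := join_mem hr hq hτ h1 h2 h3 h4
  refine ⟨_, hu1, hu2, hu3, ?_, ?_⟩
  · show τ a' = r.σ a
    have hmem : a' ∈ N := by rw [hN']; simp
    have hidx : N.idxOf a' = 0 := by rw [hN']; simp
    simp [τ, hmem, ha', hidx, src, hL']
  · show τ b' = r.σ b
    have hmem : b' ∈ N := by rw [hN']; simp
    have hidx : N.idxOf b' = 1 := by
      rw [hN', List.idxOf_cons_ne _ hab]
      simp
    simp [τ, hmem, hb', hidx, src, hL]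

end

end Pool.Agent.TH785.DS
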