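import Mathlib
import Pool.Agent.Helper669.KDelta
import Pool.Agent.TH785.WC.Real
import Pool.Agent.TH785.DS.Defs
import Pool.Agent.TH785.DS.Shape

/-!
# The generic points form a Delta-set
-/

set_option autoImplicit false

namespace Pool.Agent.TH785.DS

open Cardinal Set
open Pool.Agent.Helper669.Forcing
open Pool.Agent.TH785.WC (Same mem_Same mem_fnot_Same meets_of_dense meets_or not_meets_of_fnot
  exists_antichain)

variable {J I : Type} [LinearOrder J] [WellFoundedLT J] {F : J → I → ℕ → Set (Raw J I)}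

/-- the names of the generic points -/
def gx (i : I) (n : ℕ) : Set (Cd F) := {p | (p.1.σ i)[n]? = some true}

theorem getElem?_of_prefix {s t : List Bool} (h : s <+: t) {n : ℕ} {b : Bool}
    (hb : s[n]? = some b) : t[n]? = some b := by
  obtain ⟨u, rfl⟩ := h
  have hn : n < s.length := (List.getElem?_eq_some_iff.1 hb).1
  rw [List.getElem?_append_left hn]
  exact hb

theorem down_gx (i : I) (n : ℕ) : Down (gx (F := F) i n) :=
  fun _ hp _ hq => getElem?_of_prefix (hq.1 i) hp

theorem bit_false {p : Cd F} {i : I} {n : ℕ} (h : (p.1.σ i)[n]? = some false) :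
    p ∈ fnot (meets (gx i n)) := by
  intro q hq hm
  obtain ⟨r, hr, h'⟩ := exists_of_meets (down_gx i n) hm
  have h1 : (r.1.σ i)[n]? = some true := h'
  have h2 := getElem?_of_prefix ((hr.trans hq).1 i) h
  rw [h1] at h2
  simp at h2

theorem initN_of_prefix {p : Cd F} {s : List Bool} {i : I} (h : s <+: p.1.σ i) :
    p ∈ InitN s (gx i) := by
  intro n hn
  have h1 : s[n]? = some s[n] := List.getElem?_eq_getElem hn
  have h2 := getElem?_of_prefix h h1
  have h3 : s.getD n false = s[n] := by simp [List.getD, h1]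
  rw [h3]
  split_ifs with hb
  · rw [hb] at h2
    exact meets_of_mem h2
  · have hb' : s[n] = false := by simpa using hb
    rw [hb'] at h2
    exact bit_false h2

theorem prefix_of_initN {p : Cd F} {s : List Bool} {i : I} (h : p ∈ InitN s (gx i))
    (hl : s.length ≤ (p.1.σ i).length) : s <+: p.1.σ i := by
  rw [List.prefix_iff_getElem?]
  intro n hn
  have h1 : s[n]? = some s[n] := List.getElem?_eq_getElem hn
  have h3 : s.getD n false = s[n] := by simp [List.getD, h1]
  have h4 := h n hn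
  rw [h3] at h4
  have hn' : n < (p.1.σ i).length := hn.trans_le hl
  have h5 : (p.1.σ i)[n]? = some (p.1.σ i)[n] := List.getElem?_eq_getElem hn'
  rw [h5]
  congr 1
  split_ifs at h4 with hb
  · rw [hb]
    by_contra hcon
    have hcon' : (p.1.σ i)[n] = false := by simpa using hcon
    rw [hcon'] at h5
    exact bit_false h5 p le_rfl h4
  · have hb' : s[n] = false := by simpa using hb
    rw [hb']
    by_contra hcon
    have hcon' : (p.1.σ i)[n] = true := by simpa using hcon
    rw [hcon'] at h5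
    exact h4 p le_rfl (meets_of_mem h5)

/-- lengthening the approximations -/
theorem exists_le_long (p : Cd F) (τ : I → List Bool) (hτ : {i | τ i ≠ []}.Finite)
    (h : ∀ i, p.1.σ i <+: τ i) : ∃ r ≤ p, r.1.σ = τ ∧ r.1.A = p.1.A ∧ r.1.H = p.1.H := by
  obtain ⟨h1, h2⟩ := exists_long p.2 hτ h
  exact ⟨⟨_, h1⟩, h2, rfl, rfl, rfl⟩

theorem exists_prefix {p : Cd F} {s : List Bool} {i : I} (h : p ∈ InitN s (gx i)) :
    ∃ r ≤ p, s <+: r.1.σ i := by
  classical
  obtain ⟨r, hr, hσ, _, _⟩ := exists_le_long p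
    (Function.update p.1.σ i (p.1.σ i ++ List.replicate s.length false))
    ((p.1.fin.insert i).subset (by
      intro i' hi'
      by_cases hii : i' = i
      · exact Or.inl hii
      · right
        simpa [hii] using hi')) (by
      intro i'
      by_cases hii : i' = i
      · subst hii
        simp
      · simp [hii])
  refine ⟨r, hr, prefix_of_initN (down_InitN _ _ _ h _ hr) ?_⟩
  rw [hσ]
  simp

/-- the points of a condition -/
noncomputable def lst (p : Raw J I) : List I := (sI_fin p).toFinset.toList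

omit [LinearOrder J] [WellFoundedLT J] in
theorem mem_lst {p : Raw J I} {i : I} : i ∈ lst p ↔ i ∈ sI p := by simp [lst]

theorem cond_ccc (E : Type) (f : E → Cd F) (hE : ¬ #E ≤ ℵ₀) :
    ∃ i j, i ≠ j ∧ ∃ r, r ≤ f i ∧ r ≤ f j := by
  obtain ⟨T, RI, RJ, hT, _, _, h1, h2⟩ := exists_sim hE (fun e => (f e).1) fun e => lst (f e).1
  have hT' : T.Nontrivial := by
    by_contra hcon
    rw [Set.not_nontrivial_iff] at hcon
    exact hT hcon.finite.countable
  obtain ⟨e, he, e', he', hne⟩ := hT'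
  obtain ⟨u, hu, hu1, hu2⟩ := amal2 (f e).2 (f e').2 (h2 e he e' he') (fun i hi => mem_lst.2 hi)
    (fun i hi => mem_lst.2 hi) (h1 e he e' he' hne).1 (h1 e he e' he' hne).2
  exact ⟨e, e', hne, ⟨u, hu⟩, hu1, hu2⟩

omit [LinearOrder J] [WellFoundedLT J] in
/-- the lengths of the approximations are bounded -/
theorem exists_bound (p : Raw J I) : ∃ N, ∀ i, (p.σ i).length ≤ N := by
  obtain ⟨N, hN⟩ := (p.fin.image fun i => (p.σ i).length).bddAbove
  refine ⟨N, fun i => ?_⟩
  by_cases h : p.σ i = []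
  · simp [h]
  · exact hN ⟨i, h, rfl⟩

/-- lengthen a sequence to the length `N` by adding zeros, then add `b` -/
def pad (N : ℕ) (s : List Bool) (b : Bool) : List Bool :=
  s ++ List.replicate (N - s.length) false ++ [b]

theorem prefix_pad (N : ℕ) (s : List Bool) (b : Bool) : s <+: pad N s b := by
  rw [pad, List.append_assoc]
  exact List.prefix_append _ _

theorem length_pad {N : ℕ} {s : List Bool} (h : s.length ≤ N) (b : Bool) :
    (pad N s b).length = N + 1 := by
  simp [pad]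
  omega

theorem pad_get {N : ℕ} {s : List Bool} (h : s.length ≤ N) (b : Bool) :
    (pad N s b)[N]? = some b := by
  have h1 : (s ++ List.replicate (N - s.length) false).length = N := by
    simp
    omega
  rw [pad, List.getElem?_append_right (by omega), h1]
  simp

theorem inc_pad {N : ℕ} {s t : List Bool} (hs : s.length ≤ N) (ht : t.length ≤ N) {b c : Bool}
    (hbc : b ≠ c) : Inc (pad N s b) (pad N t c) := by
  constructor
  · intro h
    have h1 := getElem?_of_prefix h (pad_get hs b)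
    rw [pad_get ht] at h1
    exact hbc (Option.some.inj h1).symm
  · intro h
    have h1 := getElem?_of_prefix h (pad_get ht c)
    rw [pad_get hs] at h1
    exact hbc (Option.some.inj h1)

/-- Lengthen the approximations on a finite set; the one of `i` gets a last digit different from
the others. -/
theorem exists_sep (p : Cd F) (i : I) {S : Set I} (hS : S.Finite) (hi : i ∉ S) :
    ∃ r ≤ p, r.1.A = p.1.A ∧ r.1.H = p.1.H ∧ (∀ i' ∈ S, Inc (r.1.σ i) (r.1.σ i')) ∧
      ∃ N : ℕ, (r.1.σ i)[N]? = some true ∧ ∀ i' ∈ S, (r.1.σ i')[N]? = some false := by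
  classical
  obtain ⟨N, hN⟩ := exists_bound p.1
  let τ : I → List Bool := fun i' => if i' = i then pad N (p.1.σ i') true else
    if i' ∈ S then pad N (p.1.σ i') false else p.1.σ i'
  have h1 : τ i = pad N (p.1.σ i) true := by simp [τ]
  have h2 : ∀ i' ∈ S, τ i' = pad N (p.1.σ i') false := by
    intro i' hi'
    have hne : i' ≠ i := fun h => hi (h ▸ hi')
    simp [τ, hne, hi']
  obtain ⟨r, hr, hσ, hA, hH⟩ := exists_le_long p τ
    (((p.1.fin.union hS).insert i).subset (by
      intro i' hi'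
      by_cases hii : i' = i
      · exact Or.inl hii
      · by_cases hiS : i' ∈ S
        · exact Or.inr (Or.inr hiS)
        · right; left
          simpa [τ, hii, hiS] using hi')) (by
      intro i'
      by_cases hii : i' = i
      · subst hii
        rw [h1]
        exact prefix_pad _ _ _
      · by_cases hiS : i' ∈ S
        · rw [h2 i' hiS]
          exact prefix_pad _ _ _
        · simp [τ, hii, hiS])
  refine ⟨r, hr, hA, hH, fun i' hi' => ?_, N, ?_, fun i' hi' => ?_⟩
  · rw [hσ, h1, h2 i' hi']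
    exact inc_pad (hN _) (hN _) (by simp)
  · rw [hσ, h1]
    exact pad_get (hN _) _
  · rw [hσ, h2 i' hi']
    exact pad_get (hN _) _

/-- the generic points are pairwise different -/
theorem gx_ne {i j : I} (hij : i ≠ j) (p : Cd F) : p ∈ fnot (Same (gx i) (gx (F := F) j)) := by
  refine mem_fnot_Same fun q _ => ?_
  obtain ⟨r, hr, _, _, _, N, h1, h2⟩ := exists_sep q i (finite_singleton j) (by simpa using hij)
  exact ⟨N, r, hr, Or.inl ⟨meets_of_mem h1, bit_false (h2 j rfl)⟩⟩

/-- the supports of at most `ℵ₁` conditions are bounded -/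
theorem exists_below (hcof : ∀ S : Set J, #S ≤ ℵ_ 1 → ∃ b, ∀ s ∈ S, s < b)
    {A : Set (Cd F)} (hA : #A ≤ ℵ_ 1) : ∃ b : J, ∀ a ∈ A, ∀ b' ≥ b, Below a.1 b' := by
  obtain ⟨b, hb⟩ := hcof (⋃ a : A, sJ a.1.1) (by
    refine (mk_iUnion_le_sum_mk).trans ?_
    refine (Cardinal.sum_le_sum _ (fun _ => ℵ₀) fun a => ?_).trans ?_
    · exact Cardinal.le_aleph0_iff_set_countable.2 (sJ_fin _).countable
    · rw [Cardinal.sum_const']
      exact (mul_le_mul' hA (aleph0_le_aleph 1)).trans (mul_eq_self (aleph0_le_aleph 1)).le)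
  refine ⟨b, fun a ha b' hb' => ⟨fun x hx => ?_, fun x hx => ?_⟩⟩
  · exact (hb x.1 (Set.mem_iUnion.2 ⟨⟨a, ha⟩, Or.inl ⟨x, hx, rfl⟩⟩)).trans_le hb'
  · exact (hb x.1 (Set.mem_iUnion.2 ⟨⟨a, ha⟩, Or.inr ⟨x, hx, rfl⟩⟩)).trans_le hb'

/-- every function on the generic points has a point-finite open expansion -/
theorem delta_gx (hI : #I ≤ ℵ_ 1) (hcof : ∀ S : Set J, #S ≤ ℵ_ 1 → ∃ b, ∀ s ∈ S, s < b)
    (hF : ∀ N : I → ℕ → Set (Raw J I), (∀ ξ m, (N ξ m).Countable) → ∀ b, ∃ j, b < j ∧ F j = N)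
    (f : I → ℕ → Set (Cd F)) (q : Cd F) (hq : q ∈ IsFun f) :
    q ∈ fex fun U : ℕ → List Bool → Set (Cd F) =>
      fand (fall fun i => fall fun n => fimp (meets (f i n))
        (fex fun s => fand (meets (U n s)) (InitN s (gx i))))
        (fall fun i => fex fun k => fall fun m => fall fun _ : k ≤ m => fall fun s =>
          fnot (fand (meets (U m s)) (InitN s (gx i)))) := by
  classical
  choose A hA1 hA2 hA3 using fun (ξ : I) (m : ℕ) =>
    exists_antichain (c := ℵ₀) cond_ccc {a : Cd F | a ≤ q ∧ a ∈ meets (f ξ m)}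
  have h01 : ℵ₀ ≤ ℵ_ 1 := aleph0_le_aleph 1
  obtain ⟨b, hb⟩ := exists_below hcof (A := ⋃ x : I × ℕ, A x.1 x.2) (by
      refine (mk_iUnion_le_sum_mk).trans ?_
      refine (Cardinal.sum_le_sum _ (fun _ => ℵ₀) fun x => hA2 _ _).trans ?_
      rw [Cardinal.sum_const']
      refine (mul_le_mul' ?_ h01).trans (mul_eq_self h01).le
      simp only [mk_prod, lift_id, mk_nat]
      exact (mul_le_mul' hI h01).trans (mul_eq_self h01).le)
  let N : I → ℕ → Set (Raw J I) := fun ξ m => Subtype.val '' A ξ m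
  obtain ⟨j, hbj, hj⟩ := hF N
    (fun ξ m => (Cardinal.le_aleph0_iff_set_countable.1 (hA2 ξ m)).image _) b
  have hbelow : ∀ ξ m, ∀ a ∈ A ξ m, Below a.1 j := fun ξ m a ha =>
    hb a (Set.mem_iUnion.2 ⟨(ξ, m), ha⟩) j hbj.le
  -- a promise at `j` bounds the value of the function
  have hLV : ∀ (r : Cd F) (ξ : I) (k m : ℕ), r ≤ q → (j, ξ, k) ∈ r.1.H → r ∈ meets (f ξ m) →
      m < k := by
    intro r ξ k m hr hk hm
    obtain ⟨a, ha, u, hu1, hu2⟩ := hA3 ξ m r ⟨hr, hm⟩
    refine r.2.2 j ξ k hk (cut u.1 j) (cut_mem_V u.2 j) (cut_mono hu2 j) m ?_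
    rw [hj]
    exact ⟨a.1, ⟨a, ha, rfl⟩, cut_le_of_below hu1 (hbelow ξ m a ha)⟩
  refine mem_fex.2 fun q' hq' => ⟨q', le_rfl, fun m s => {r | (j, s, m) ∈ r.1.A}, ?_, ?_⟩
  · intro i n
    refine mem_fimp.2 fun r hr hm => ⟨r, le_rfl, mem_fex.2 fun r1 hr1 => ?_⟩
    have hr1q : r1 ≤ q := hr1.trans (hr.trans hq')
    have hm1 : r1 ∈ meets (f i n) := down_meets _ _ hm _ hr1
    obtain ⟨r2, hr2, hA', hH', hinc, _⟩ := exists_sep r1 i (S := {i' | i' ≠ i ∧ i' ∈ sI r1.1})
      ((sI_fin _).subset fun _ h => h.2) (fun h => h.1 rfl)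
    have hm2 : r2 ∈ meets (f i n) := down_meets _ _ hm1 _ hr2
    have hle : RLe (⟨r2.1.σ, r2.1.fin, insert (j, r2.1.σ i, n) r2.1.A, r2.1.finA.insert _,
        r2.1.H, r2.1.finH⟩ : Raw J I) r2.1 :=
      ⟨fun _ => List.prefix_rfl, subset_insert _ _, subset_rfl⟩
    have hmem : (⟨r2.1.σ, r2.1.fin, insert (j, r2.1.σ i, n) r2.1.A, r2.1.finA.insert _,
        r2.1.H, r2.1.finH⟩ : Raw J I) ∈ PS F := by
      refine mem_PS_of_promises ?_ fun j' ξ k hk => Or.inl ⟨r2.1, r2.2, hle, hk⟩
      rintro j' s m i' k (ha | ha) hb' hk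
      · obtain ⟨rfl, rfl, rfl⟩ : j' = j ∧ s = r2.1.σ i ∧ m = n := by simpa using ha
        by_cases hii : i' = i
        · subst hii
          exact absurd (hLV r2 _ k m (hr2.trans hr1q) hb' hm2) (not_lt.2 hk)
        · refine hinc i' ⟨hii, ?_⟩
          right
          rw [← hH']
          exact ⟨(_, i', k), hb', rfl⟩
      · exact r2.2.1 j' s m i' k ha hb' hk
    refine ⟨⟨_, hmem⟩, hle.trans hr2, r2.1.σ i, ?_, ?_⟩
    · exact meets_of_mem (mem_insert _ _)
    · exact initN_of_prefix List.prefix_rfl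
  · intro i
    refine mem_fex.2 fun r hr => ?_
    have hrq : r ≤ q := hr.trans hq'
    obtain ⟨r1, hr1, m, hm⟩ := IsFun.total (down_IsFun f _ hq _ hrq) i
    obtain ⟨a, ha, u, hu1, hu2⟩ := hA3 i m r1 ⟨hr1.trans hrq, hm⟩
    have huq : u ≤ q := hu2.trans (hr1.trans hrq)
    obtain ⟨M, hM⟩ := (u.1.finA.image fun x => x.2.2).bddAbove
    let k := max m M + 1
    have hle : RLe (⟨u.1.σ, u.1.fin, u.1.A, u.1.finA, insert (j, i, k) u.1.H,
        u.1.finH.insert _⟩ : Raw J I) u.1 :=
      ⟨fun _ => List.prefix_rfl, subset_rfl, subset_insert _ _⟩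
    have hmem : (⟨u.1.σ, u.1.fin, u.1.A, u.1.finA, insert (j, i, k) u.1.H,
        u.1.finH.insert _⟩ : Raw J I) ∈ PS F := by
      refine mem_PS_of_promises ?_ ?_
      · rintro j' s m' i' k' ha' (hb' | hb') hk
        · obtain ⟨rfl, rfl, rfl⟩ : j' = j ∧ i' = i ∧ k' = k := by simpa using hb'
          have h1 : m' ≤ M := hM ⟨_, ha', rfl⟩
          have h2 : M < max m M + 1 := Nat.lt_succ_of_le (le_max_right _ _)
          exact absurd hk (not_le.2 (h1.trans_lt h2))
        · exact u.2.1 j' s m' i' k' ha' hb' hk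
      · rintro j' ξ k' (hb' | hb')
        · obtain ⟨rfl, rfl, rfl⟩ : j' = j ∧ ξ = i ∧ k' = k := by simpa using hb'
          right
          rintro w hw hwle m' ⟨s, hs, hws⟩
          rw [hj] at hs
          obtain ⟨a', ha', rfl⟩ := hs
          have hwle' : RLe w (cut u.1 j') := hwle.trans (cut_mono hle j')
          obtain ⟨hg1, hg2, hg3⟩ := glue u.2 hw hwle'
          let g : Cd F := ⟨_, hg1⟩
          have hgu : g ≤ u := hg3
          have hga : g ≤ a' := hg2.trans hws
          have h1 : g ∈ meets (f ξ m') := down_meets _ _ (hA1 ξ m' ha').2 _ hga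
          have h2 : g ∈ meets (f ξ m) := down_meets _ _ hm _ (hgu.trans hu2)
          have h3 : m' = m := IsFun.unique (down_IsFun f _ hq _ (hgu.trans huq)) h1 h2
          rw [h3]
          exact Nat.lt_succ_of_le (le_max_left _ _)
        · exact Or.inl ⟨u.1, u.2, hle, hb'⟩
    refine ⟨⟨_, hmem⟩, hle.trans (hu2.trans hr1), k, ?_⟩
    intro m' hm' s v hv hcon
    obtain ⟨v1, hv1, hA'⟩ := exists_of_meets (N := {r : Cd F | (j, s, m') ∈ r.1.A})
      (fun p hp q hq => (show RLe q.1 p.1 from hq).2.1 hp) hcon.1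
    obtain ⟨v2, hv2, hpre⟩ := exists_prefix (down_InitN _ _ _ hcon.2 _ hv1)
    have h1 : (j, s, m') ∈ v2.1.A := hv2.2.1 hA'
    have h2 : (j, i, k) ∈ v2.1.H := (hv2.trans (hv1.trans hv)).2.2 (mem_insert _ _)
    exact (v2.2.1 j s m' i k h1 h2 hm').1 hpre

end Pool.Agent.TH785.DS
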