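import Mathlib
import Pool.Agent.TH785.DS.Main

/-!
# The square of the set of the generic points; bookkeeping
-/

set_option autoImplicit false

namespace Pool.Agent.TH785.DS

open Cardinal Set
open Pool.Agent.Helper669.Forcing

/-- the first uncountable cardinal -/
abbrev K1 : Type := (ℵ_ 1 : Cardinal.{0}).ord.ToType

theorem mk_K1 : #K1 = ℵ_ 1 := by rw [mk_toType, card_ord]

theorem countable_Iio (b : K1) : (Iio b).Countable := by
  have h : #(Iio b) < ℵ_ 1 := Cardinal.mk_Iio_toType_ord_lt b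
  rw [← Cardinal.le_aleph0_iff_set_countable, ← Order.lt_succ_iff, ← Cardinal.aleph_zero,
    ← Cardinal.aleph_succ]
  simpa using h

theorem countable_Iic (b : K1) : (Iic b).Countable := by
  rw [← Iio_insert]
  exact (countable_Iio b).insert b

theorem not_countable_K1 : ¬ #K1 ≤ ℵ₀ := by
  rw [mk_K1]
  exact not_le.2 aleph0_lt_aleph_one

/-- for every `b`, the function `g b` is injective on the predecessors of `b` -/
theorem exists_g : ∃ g : K1 → K1 → ℕ, ∀ b a a', a < b → a' < b → g b a = g b a' → a = a' := by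
  have h : ∀ b : K1, ∃ h : K1 → ℕ, InjOn h (Iio b) := fun b =>
    countable_iff_exists_injOn.1 (countable_Iio b)
  choose g hg using h
  exact ⟨g, fun b a a' ha ha' heq => hg b ha ha' heq⟩

/-- the index set of the generic points -/
abbrev KK : Type := K1 ⊕ K1

/-- the function on the square -/
def e0 (g : K1 → K1 → ℕ) (z : KK × KK) : ℕ :=
  match z with
  | (Sum.inl a, Sum.inr b) => g b a
  | _ => 0

theorem exists_pair {g : K1 → K1 → ℕ} (hg : ∀ b a a', a < b → a' < b → g b a = g b a' → a = a')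
    {T : Set K1} (hT : ¬ T.Countable) (n : ℕ) : ∃ a ∈ T, ∃ b ∈ T, a < b ∧ n ≤ g b a := by
  have hinf : T.Infinite := fun h => hT h.countable
  let c : ℕ → K1 := fun k => (hinf.natEmbedding T k : T)
  have hc : Function.Injective c := fun k l h =>
    (hinf.natEmbedding T).injective (Subtype.ext h)
  have hb : ∃ b ∈ T, ∀ k, c k < b := by
    by_contra hcon
    push Not at hcon
    apply hT
    refine (countable_iUnion fun k => countable_Iic (c k)).mono ?_
    intro b hb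
    obtain ⟨k, hk⟩ := hcon b hb
    exact mem_iUnion.2 ⟨k, hk⟩
  obtain ⟨b, hb, hcb⟩ := hb
  by_contra hcon
  push Not at hcon
  have h1 : ∀ k, g b (c k) < n := fun k => hcon (c k) (hinf.natEmbedding T k).2 b hb (hcb k)
  have h2 : Function.Injective fun k => g b (c k) := fun k l h => hc (hg b _ _ (hcb k) (hcb l) h)
  refine Set.infinite_range_of_injective h2 ((finite_Iio n).subset ?_)
  rintro _ ⟨k, rfl⟩
  exact h1 k

variable {J : Type} [LinearOrder J] [WellFoundedLT J] {F : J → KK → ℕ → Set (Raw J KK)}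

theorem not_sq {g : K1 → K1 → ℕ} (hg : ∀ b a a', a < b → a' < b → g b a = g b a' → a = a')
    (q : Cd F) (U : ℕ → List Bool × List Bool → Set (Cd F))
    (h1 : ∀ z : KK × KK, ∀ n, q ∈ fimp (meets (fground (e0 g z = n)))
      (fex fun s : List Bool × List Bool => fand (meets (U n s))
        (fand (InitN s.1 (gx z.1)) (InitN s.2 (gx z.2)))))
    (h2 : ∀ z : KK × KK, q ∈ fex fun k => fall fun m => fall fun _ : k ≤ m =>
      fall fun s : List Bool × List Bool =>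
        fnot (fand (meets (U m s)) (fand (InitN s.1 (gx z.1)) (InitN s.2 (gx z.2))))) :
    False := by
  classical
  choose pc hpc kk hkk using fun ζ : K1 => mem_fex.1 (h2 (Sum.inl ζ, Sum.inr ζ)) q le_rfl
  let L : K1 → List KK := fun ζ => Sum.inl ζ :: Sum.inr ζ :: lst (pc ζ).1
  have hL : ∀ ζ, ∀ i ∈ sI (pc ζ).1, i ∈ L ζ := fun ζ i hi =>
    List.mem_cons_of_mem _ (List.mem_cons_of_mem _ (mem_lst.2 hi))
  obtain ⟨T, RI, RJ, hT, hRI, hRJ, hdel, hsim⟩ := exists_sim not_countable_K1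
    (fun ζ => (pc ζ).1) L
  obtain ⟨n, hn⟩ := exists_fiber hT kk
  let T' : Set K1 := {ζ | ζ ∈ T ∩ kk ⁻¹' {n} ∧ Sum.inl ζ ∉ RI ∧ Sum.inr ζ ∉ RI}
  have hT' : ¬ T'.Countable := by
    intro hcon
    apply hn
    refine ((hcon.union (hRI.preimage (f := Sum.inl) Sum.inl_injective)).union
      (hRI.preimage (f := Sum.inr) Sum.inr_injective)).mono ?_
    intro ζ hζ
    by_cases h3 : Sum.inl ζ ∈ RI
    · exact Or.inl (Or.inr h3)
    · by_cases h4 : Sum.inr ζ ∈ RI
      · exact Or.inr h4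
      · exact Or.inl (Or.inl ⟨hζ, h3, h4⟩)
  obtain ⟨a, ha, b, hb, hab, hnab⟩ := exists_pair hg hT' n
  have hTT : ∀ {ζ}, ζ ∈ T' → ζ ∈ T := fun h => h.1.1
  obtain ⟨u0', hu0', hu0a, hu0b⟩ := amal2 (pc a).2 (pc b).2 (hsim a (hTT ha) b (hTT hb)) (hL a)
    (hL b) (hdel a (hTT ha) b (hTT hb) hab.ne).1 (hdel a (hTT ha) b (hTT hb) hab.ne).2
  let u0 : Cd F := ⟨u0', hu0'⟩
  have hu0a : u0 ≤ pc a := hu0a
  have hu0b : u0 ≤ pc b := hu0b
  obtain ⟨u1, hu1, hu1'⟩ := mem_fimp.1 (h1 (Sum.inl a, Sum.inr b) (g b a)) u0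
    (hu0a.trans (hpc a)) (meets_of_mem (mem_fground.2 rfl))
  obtain ⟨u2, hu2, s, hs1, hs2, hs3⟩ := mem_fex.1 hu1' u1 le_rfl
  obtain ⟨u3, hu3, hpre1⟩ := exists_prefix hs2
  obtain ⟨u4, hu4, hpre2⟩ := exists_prefix (down_InitN _ _ _ hs3 _ hu3)
  obtain ⟨r, hr, w, hw, hrw⟩ := hs1 u4 (hu4.trans hu3)
  have hru0 : r ≤ u0 := hr.trans (hu4.trans (hu3.trans (hu2.trans hu1)))
  have hpr1 : s.1 <+: r.1.σ (Sum.inl a) := (hpre1.trans (hu4.1 _)).trans (hr.1 _)
  have hpr2 : s.2 <+: r.1.σ (Sum.inr b) := hpre2.trans (hr.1 _)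
  -- the third condition
  have hc : ∃ c ∈ T', (∀ i ∈ L c, i ∈ sI r.1 → i ∈ RI) ∧ ∀ j ∈ sJ (pc c).1, j ∈ sJ r.1 → j ∈ RJ := by
    by_contra hcon
    push Not at hcon
    apply hT'
    have hcI : ∀ i : KK, {c | c ∈ T' ∧ i ∈ L c ∧ i ∉ RI}.Countable := by
      intro i
      refine Set.Subsingleton.countable ?_
      rintro c ⟨hc1, hc2, hc3⟩ c' ⟨hc1', hc2', _⟩
      by_contra hne
      exact hc3 ((hdel c (hTT hc1) c' (hTT hc1') hne).1 i hc2 hc2')
    have hcJ : ∀ j : J, {c | c ∈ T' ∧ j ∈ sJ (pc c).1 ∧ j ∉ RJ}.Countable := by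
      intro i
      refine Set.Subsingleton.countable ?_
      rintro c ⟨hc1, hc2, hc3⟩ c' ⟨hc1', hc2', _⟩
      by_contra hne
      exact hc3 ((hdel c (hTT hc1) c' (hTT hc1') hne).2 i hc2 hc2')
    refine (((sI_fin r.1).countable.biUnion fun i _ => hcI i).union
      ((sJ_fin r.1).countable.biUnion fun j _ => hcJ j)).mono ?_
    intro c hc'
    by_cases h3 : ∀ i ∈ L c, i ∈ sI r.1 → i ∈ RI
    · obtain ⟨j, hj1, hj2, hj3⟩ := hcon c hc' h3
      right
      simp only [mem_iUnion]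
      exact ⟨j, hj2, hc', hj1, hj3⟩
    · push Not at h3
      obtain ⟨i, hi1, hi2, hi3⟩ := h3
      left
      simp only [mem_iUnion]
      exact ⟨i, hi2, hc', hi1, hi3⟩
  obtain ⟨c, hc, hcI, hcJ⟩ := hc
  obtain ⟨u', hu', hur, huc, hσ1, hσ2⟩ := amal3 (a' := Sum.inl c) (b' := Sum.inr c)
    (L := L b) (L' := L a) r.2 (pc c).2 (hru0.trans hu0b)
    (hru0.trans hu0a) (hsim b (hTT hb) c (hTT hc)) (hsim a (hTT ha) c (hTT hc)) (hL c) hcI hcJ
    (a := Sum.inl a) (b := Sum.inr b) rfl rfl rfl (by simp) hc.2.1 hc.2.2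
  let u : Cd F := ⟨u', hu'⟩
  have hur : u ≤ r := hur
  have huc : u ≤ pc c := huc
  have hkc : kk c = n := hc.1.2
  refine hkk c (g b a) (by rw [hkc]; exact hnab) s u huc ⟨meets_of_le hw (hur.trans hrw), ?_, ?_⟩
  · refine initN_of_prefix ?_
    show s.1 <+: u'.σ (Sum.inl c)
    rw [hσ1]
    exact hpr1
  · refine initN_of_prefix ?_
    show s.2 <+: u'.σ (Sum.inr c)
    rw [hσ2]
    exact hpr2

/-! ### Bookkeeping -/

theorem mk_arrow_le {A X : Type} {κ : Cardinal.{0}} (hκ : ℵ₀ ≤ κ) (hA : #A ≤ κ)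
    (hX : #X ≤ 2 ^ κ) : #(A → X) ≤ 2 ^ κ := by
  rw [← power_def]
  calc #X ^ #A ≤ (2 ^ κ) ^ #A := power_le_power_right hX
    _ = 2 ^ (κ * #A) := (power_mul).symm
    _ ≤ 2 ^ κ := power_le_power_left two_ne_zero ((mul_le_mul' le_rfl hA).trans
        (mul_eq_self hκ).le)

theorem mk_finset_le' {X : Type} {lam : Cardinal.{0}} (h0 : ℵ₀ ≤ lam) (hX : #X ≤ lam) :
    #(Finset X) ≤ lam := by
  rcases finite_or_infinite X with h | h
  · exact ((mk_lt_aleph0).le).trans h0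
  · rw [mk_finset_of_infinite]; exact hX

theorem mk_prod_le' {X Y : Type} {lam : Cardinal.{0}} (h0 : ℵ₀ ≤ lam) (hX : #X ≤ lam)
    (hY : #Y ≤ lam) : #(X × Y) ≤ lam := by
  rw [mk_prod, lift_id, lift_id]
  exact (mul_le_mul' hX hY).trans (mul_eq_self h0).le

theorem mk_raw_le {J I : Type} {lam : Cardinal.{0}} (h0 : ℵ₀ ≤ lam) (hJ : #J ≤ lam)
    (hI : #I ≤ lam) : #(Raw J I) ≤ lam := by
  classical
  have hfin : ∀ r : Raw J I, {x : I × List Bool | r.σ x.1 = x.2 ∧ x.2 ≠ []}.Finite := by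
    intro r
    refine (r.fin.image fun i => (i, r.σ i)).subset ?_
    rintro ⟨i, s⟩ ⟨h1, h2⟩
    simp only at h1 h2
    subst h1
    exact ⟨i, h2, rfl⟩
  let f : Raw J I → Finset (I × List Bool) × Finset (J × List Bool × ℕ) × Finset (J × I × ℕ) :=
    fun r => ((hfin r).toFinset, r.finA.toFinset, r.finH.toFinset)
  have hf : Function.Injective f := by
    intro r r' h
    simp only [f, Prod.mk.injEq, Set.Finite.toFinset_inj] at h
    obtain ⟨h1, h2, h3⟩ := h
    refine Raw.ext ?_ h2 h3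
    funext i
    by_contra hne
    by_cases h4 : r.σ i = []
    · have h5 : (i, r'.σ i) ∈ {x : I × List Bool | r'.σ x.1 = x.2 ∧ x.2 ≠ []} :=
        ⟨rfl, fun h => hne (h4.trans h.symm)⟩
      rw [← h1] at h5
      exact hne h5.1
    · have h5 : (i, r.σ i) ∈ {x : I × List Bool | r.σ x.1 = x.2 ∧ x.2 ≠ []} := ⟨rfl, h4⟩
      rw [h1] at h5
      exact hne h5.1.symm
  have hs : #(List Bool) ≤ lam := (mk_le_aleph0).trans h0
  have hn : #ℕ ≤ lam := by rw [mk_nat]; exact h0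
  refine (mk_le_of_injective hf).trans ?_
  exact mk_prod_le' h0 (mk_finset_le' h0 (mk_prod_le' h0 hI hs))
    (mk_prod_le' h0 (mk_finset_le' h0 (mk_prod_le' h0 hJ (mk_prod_le' h0 hs hn)))
      (mk_finset_le' h0 (mk_prod_le' h0 hJ (mk_prod_le' h0 hI hn))))

/-- countable sets are enumerated -/
theorem exists_enum {X : Type} {S : Set X} (hS : S.Countable) :
    ∃ h : ℕ → Option X, ∀ x, x ∈ S ↔ ∃ n, h n = some x := by
  by_cases hne : S.Nonempty
  · obtain ⟨f, rfl⟩ := hS.exists_eq_range hne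
    refine ⟨fun n => some (f n), fun x => ?_⟩
    simp
  · rw [Set.not_nonempty_iff_eq_empty] at hne
    subst hne
    exact ⟨fun _ => none, by simp⟩

/-- the length of the iteration -/
abbrev Len : Type := (2 ^ ℵ_ 1 : Cardinal.{0}).ord.ToType

theorem mk_Len : #Len = 2 ^ ℵ_ 1 := by rw [mk_toType, card_ord]

theorem len_cof (S : Set Len) (hS : #S ≤ ℵ_ 1) : ∃ b, ∀ s ∈ S, s < b := by
  by_contra hcon
  push Not at hcon
  have h1 : IsCofinal S := fun b => by
    obtain ⟨s, hs, hb⟩ := hcon b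
    exact ⟨s, hs, hb⟩
  have h2 := Order.cof_le h1
  rw [Ordinal.cof_toType] at h2
  exact absurd (h2.trans hS) (not_le.2 (lt_cof_ord_power (aleph0_le_aleph 1)
    (by exact_mod_cast Nat.one_lt_two)))

theorem len_Iic (b : Len) : #(Set.Iic b) < #Len := by
  have h1 : #(Set.Iio b) < #Len := Cardinal.mk_Iio_lt b (by simp)
  have h0 : ℵ₀ ≤ #Len := by
    rw [mk_Len]
    exact (aleph0_le_aleph 1).trans (cantor _).le
  rw [← Set.Iio_insert]
  refine (mk_insert_le).trans_lt ?_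
  exact add_lt_of_lt h0 h1 (one_lt_aleph0.trans_le h0)

/-- the bookkeeping function -/
theorem exists_book {I : Type} (hI : #I ≤ ℵ_ 1) : ∃ g : Len → I → ℕ → Set (Raw Len I),
    ∀ N : I → ℕ → Set (Raw Len I), (∀ α k, (N α k).Countable) → ∀ b, ∃ j, b < j ∧ g j = N := by
  have h1 : ℵ₀ ≤ ℵ_ 1 := aleph0_le_aleph 1
  have hlam : ℵ_ 1 ≤ 2 ^ ℵ_ 1 := (cantor _).le
  have h0 : ℵ₀ ≤ 2 ^ ℵ_ 1 := h1.trans hlam
  have hR : #(Raw Len I) ≤ 2 ^ ℵ_ 1 := mk_raw_le h0 mk_Len.le (hI.trans hlam)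
  have hO : #(Option (Raw Len I)) ≤ 2 ^ ℵ_ 1 := by
    rw [mk_option]
    exact (add_le_add hR (one_le_aleph0.trans h0)).trans (add_eq_self h0).le
  have hNat : #ℕ ≤ ℵ_ 1 := by rw [mk_nat]; exact h1
  have hNm : #(Len × (I → ℕ → ℕ → Option (Raw Len I))) ≤ #Len := by
    rw [mk_Len]
    refine mk_prod_le' h0 mk_Len.le ?_
    exact mk_arrow_le h1 hI (mk_arrow_le h1 hNat (mk_arrow_le h1 hNat hO))
  obtain ⟨F⟩ := hNm
  have hne : Nonempty Len := by
    rw [← mk_ne_zero_iff, mk_Len]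
    exact (aleph0_pos.trans_le h0).ne'
  let f := Function.invFun F
  have hf : ∀ N, f (F N) = N := Function.leftInverse_invFun F.injective
  refine ⟨fun j α k => {r | ∃ n, (f j).2 α k n = some r}, fun N hN b => ?_⟩
  choose h hh using fun α k => exists_enum (hN α k)
  have hbig : ∃ x, b < F (x, h) := by
    by_contra hcon
    push Not at hcon
    have h2 : #Len ≤ #(Set.Iic b) := by
      refine mk_le_of_injective (f := fun x => (⟨F (x, h), hcon x⟩ : Set.Iic b)) ?_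
      intro x y hxy
      have h3 : F (x, h) = F (y, h) := congrArg Subtype.val hxy
      exact (Prod.mk.inj (F.injective h3)).1
    exact absurd h2 (not_le.2 (len_Iic b))
  obtain ⟨x, hx⟩ := hbig
  refine ⟨F (x, h), hx, ?_⟩
  funext α k
  ext r
  rw [hh α k r]
  simp only [hf, Set.mem_ofPred_eq]

/-- Some notion of forcing forces `DeltaFamily`. -/
theorem exists_forcing : ∃ (P : Type) (_ : Preorder P) (I : Type), Nonempty P ∧
    ∀ p : P, p ∈ DeltaFamilyN P I := by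
  have h01 : ℵ₀ ≤ ℵ_ 1 := aleph0_le_aleph 1
  have hI : #KK ≤ ℵ_ 1 := by
    rw [mk_sum, lift_id, mk_K1]
    exact (add_eq_self h01).le
  obtain ⟨F, hF⟩ := exists_book hI
  obtain ⟨g, hg⟩ := exists_g
  refine ⟨Cd F, inferInstance, KK, inferInstance, fun p => ?_⟩
  refine mem_fex.2 fun q _ => ⟨q, le_rfl, gx, ?_, ?_, ?_⟩
  · intro i j hij
    exact gx_ne hij q
  · intro f
    exact mem_fimp.2 fun r _ hr => ⟨r, le_rfl, delta_gx hI len_cof hF f r hr⟩
  · refine mem_fex.2 fun r _ => ⟨r, le_rfl, fun z n => fground (e0 g z = n), ⟨?_, ?_⟩, ?_⟩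
    · intro z
      exact mem_fex.2 fun s _ => ⟨s, le_rfl, e0 g z, meets_of_mem (mem_fground.2 rfl)⟩
    · intro z n n'
      refine mem_fimp.2 fun s _ hs => ⟨s, le_rfl, mem_fground.2 ?_⟩
      obtain ⟨_, _, _, h1, _⟩ := hs.1 s le_rfl
      obtain ⟨_, _, _, h2, _⟩ := hs.2 s le_rfl
      have h1 : e0 g z = n := h1
      have h2 : e0 g z = n' := h2
      exact h1.symm.trans h2
    · intro s _ hs
      obtain ⟨t, _, U, hU1, hU2⟩ := mem_fex.1 hs s le_rfl
      exact not_sq hg t U hU1 hU2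

end Pool.Agent.TH785.DS
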