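import Mathlib
import Pool.Agent.TH785.DS.Defs

/-!
# From the combinatorial statement to a set of reals
-/

set_option autoImplicit false

namespace Pool.Agent.TH785.DS

open Set Topology

/-- A topological space `Z` is a Delta-space if for every partition of `Z` into pairwise disjoint
sets `D n` (`n : ℕ`) there are open sets `U n` containing `D n` such that every point of `Z`
belongs to only finitely many `U n`. -/
def IsDelta (Z : Type) [TopologicalSpace Z] : Prop :=
  ∀ D : ℕ → Set Z, (∀ z, ∃ n, z ∈ D n) → (∀ m n, m ≠ n → Disjoint (D m) (D n)) →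
    ∃ U : ℕ → Set Z, (∀ n, IsOpen (U n)) ∧ (∀ n, D n ⊆ U n) ∧ ∀ z, {n | z ∈ U n}.Finite

/-- the basic open set of the Cantor space given by a finite sequence -/
def cyl (s : List Bool) : Set (ℕ → Bool) := {a | ∀ n, n < s.length → s.getD n false = a n}

theorem isOpen_cyl (s : List Bool) : IsOpen (cyl s) := by
  have h : cyl s = ⋂ n ∈ Finset.range s.length, {a : ℕ → Bool | s.getD n false = a n} := by
    ext a
    simp only [cyl, Finset.mem_range, mem_iInter]
    rfl
  rw [h]
  refine isOpen_biInter_finset fun n _ => ?_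
  exact (isOpen_discrete {b : Bool | s.getD n false = b}).preimage (continuous_apply n)

theorem exists_cyl {O : Set (ℕ → Bool)} (hO : IsOpen O) {a : ℕ → Bool} (ha : a ∈ O) :
    ∃ s, a ∈ cyl s ∧ cyl s ⊆ O := by
  obtain ⟨_, ⟨x, n, rfl⟩, hax, hxO⟩ :=
    (PiNat.isTopologicalBasis_cylinders (fun _ : ℕ => Bool)).exists_subset_of_mem_open ha hO
  have hget : ∀ k, k < n → ((List.range n).map a).getD k false = a k := by
    intro k hk
    simp [List.getD, hk]
  refine ⟨(List.range n).map a, fun k hk => ?_, fun b hb => hxO ?_⟩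
  · simp only [List.length_map, List.length_range] at hk
    exact hget k hk
  · rw [PiNat.mem_cylinder_iff] at hax ⊢
    intro k hk
    have h1 := hb k (by simpa using hk)
    rw [hget k hk] at h1
    rw [← hax k hk, h1]

/-- the characteristic function -/
noncomputable def chi (a : Set ℕ) (n : ℕ) : Bool := by
  classical
  exact decide (n ∈ a)

theorem chi_mem_cyl {s : List Bool} {a : Set ℕ} : chi a ∈ cyl s ↔ Init s a := by
  refine forall_congr' fun n => forall_congr' fun _ => ?_
  by_cases hn : n ∈ a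
  · simp [chi, hn]
  · simp [chi, hn]

theorem chi_injective : Function.Injective chi := by
  intro a b h
  ext n
  have h1 := congrFun h n
  simpa [chi] using h1

/-- the embedding of the Cantor space into the reals -/
noncomputable def cant (a : ℕ → Bool) : ℝ := (cantorSetHomeomorphNatToBool.symm a : cantorSet)

theorem isEmbedding_cant : IsEmbedding cant :=
  IsEmbedding.subtypeVal.comp cantorSetHomeomorphNatToBool.symm.isEmbedding

/-- The combinatorial statement gives a Delta-set of reals whose square is not a Delta-set. -/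
theorem exists_delta {I : Type} (h : DeltaFamily I) :
    ∃ X : Set ℝ, IsDelta X ∧ ¬ IsDelta (X × X) := by
  classical
  obtain ⟨x, hx, hf, e, he⟩ := h
  let X : Set ℝ := range fun i => cant (chi (x i))
  have hinj : Function.Injective fun i => cant (chi (x i)) := by
    intro i j hij
    by_contra hne
    exact hx i j hne (chi_injective (isEmbedding_cant.injective hij))
  let φ : I → X := fun i => ⟨cant (chi (x i)), i, rfl⟩
  have hψ' : ∀ z : X, ∃ i, φ i = z := by
    rintro ⟨_, i, rfl⟩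
    exact ⟨i, rfl⟩
  choose ψ hψ using hψ'
  have hψφ : ∀ i, ψ (φ i) = i := by
    intro i
    have h1 : (φ (ψ (φ i)) : ℝ) = φ i := congrArg Subtype.val (hψ (φ i))
    exact hinj h1
  let θ : X → ℕ → Bool := fun z => chi (x (ψ z))
  have hθφ : ∀ i, θ (φ i) = chi (x i) := fun i => by simp only [θ, hψφ]
  have hcθ : cant ∘ θ = (Subtype.val : X → ℝ) := by
    funext z
    exact congrArg Subtype.val (hψ z)
  have hθ : IsInducing θ := by
    refine isEmbedding_cant.isInducing.of_comp_iff.1 ?_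
    rw [hcθ]
    exact IsInducing.subtypeVal
  have hopen : ∀ S : Set (List Bool), IsOpen {z : X | ∃ s ∈ S, θ z ∈ cyl s} := by
    intro S
    have h1 : {z : X | ∃ s ∈ S, θ z ∈ cyl s} = ⋃ s ∈ S, θ ⁻¹' cyl s := by
      ext z
      simp
    rw [h1]
    exact isOpen_biUnion fun s _ => (isOpen_cyl s).preimage hθ.continuous
  have hex : ∀ {O : Set X}, IsOpen O → ∀ {z : X}, z ∈ O →
      ∃ s, θ z ∈ cyl s ∧ ∀ z', θ z' ∈ cyl s → z' ∈ O := by
    intro O hO z hz
    obtain ⟨O', hO', rfl⟩ := hθ.isOpen_iff.1 hO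
    obtain ⟨s, hs1, hs2⟩ := exists_cyl hO' hz
    exact ⟨s, hs1, fun z' hz' => hs2 hz'⟩
  refine ⟨X, ?_, ?_⟩
  · intro D hD1 hD2
    choose d hd using hD1
    obtain ⟨U, hU1, hU2⟩ := hf fun i => d (φ i)
    refine ⟨fun n => {z | ∃ s ∈ U n, θ z ∈ cyl s}, fun n => hopen _, fun n z hz => ?_, fun z => ?_⟩
    · have hn : d z = n := by
        by_contra hne
        exact (disjoint_left.1 (hD2 _ _ hne)) (hd z) hz
      obtain ⟨s, hs1, hs2⟩ := hU1 (ψ z)
      rw [hψ, hn] at hs1
      exact ⟨s, hs1, chi_mem_cyl.2 hs2⟩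
    · obtain ⟨k, hk⟩ := hU2 (ψ z)
      refine (finite_Iio k).subset ?_
      rintro m ⟨s, hs1, hs2⟩
      by_contra hcon
      exact hk m (not_lt.1 hcon) s ⟨hs1, chi_mem_cyl.1 hs2⟩
  · intro hX
    obtain ⟨U, hU1, hU2, hU3⟩ := hX (fun n => {z | e (ψ z.1, ψ z.2) = n}) (fun z => ⟨_, rfl⟩)
      (by
        intro m n hmn
        rw [disjoint_left]
        intro z hz hz'
        exact hmn (Eq.trans (Eq.symm hz) hz'))
    refine he ⟨fun n => {s | ∀ z : X × X, θ z.1 ∈ cyl s.1 → θ z.2 ∈ cyl s.2 → z ∈ U n}, ?_, ?_⟩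
    · rintro ⟨i, j⟩
      have hz : (φ i, φ j) ∈ U (e (i, j)) := hU2 _ (by
        show e (ψ (φ i), ψ (φ j)) = e (i, j)
        rw [hψφ, hψφ])
      obtain ⟨O1, O2, hO1, hO2, hi, hj, hsub⟩ := isOpen_prod_iff.1 (hU1 _) _ _ hz
      obtain ⟨s, hs1, hs2⟩ := hex hO1 hi
      obtain ⟨t, ht1, ht2⟩ := hex hO2 hj
      rw [hθφ] at hs1 ht1
      exact ⟨(s, t), fun z h1 h2 => hsub ⟨hs2 _ h1, ht2 _ h2⟩, chi_mem_cyl.1 hs1,
        chi_mem_cyl.1 ht1⟩
    · rintro ⟨i, j⟩
      obtain ⟨k, hk⟩ := (hU3 (φ i, φ j)).bddAbove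
      refine ⟨k + 1, fun m hm s hs => ?_⟩
      have h1 : (φ i, φ j) ∈ U m := hs.1 (φ i, φ j)
        (by show θ (φ i) ∈ _; rw [hθφ]; exact chi_mem_cyl.2 hs.2.1)
        (by show θ (φ j) ∈ _; rw [hθφ]; exact chi_mem_cyl.2 hs.2.2)
      have h2 : m ≤ k := hk h1
      omega

end Pool.Agent.TH785.DS
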